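import Pool.Agent.TH30.MK.Movable

/-!
# The movable cone conjecture for finite quotients of products

A `Manifold` records what enters Q1 for a smooth projective variety `X` with `K_X ≡ 0`: `N¹(X)_ℝ`
with its lattice, the action of `Bir X`, the movable cone `Mov` and the effective cone `Eff`.
`Manifold.Q1` is Q1 for `X`: the action on `closure Mov ∩ Eff` has a rational polyhedral fundamental
domain.

`result`: if `X = ∏ Xᵢ` with `N¹(X) = ⊕ N¹(Xᵢ)`, if `Y = X/G` for a finite group `G` of
automorphisms of `X` (which may permute the factors), and if Q1 holds for all the `Xᵢ`, then Q1
holds for `Y`. By the Beauville-Bogomolov decomposition every `Y` with `K_Y ≡ 0` is such a quotient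
with `Xᵢ` abelian, irreducible holomorphic symplectic or strict Calabi-Yau; as Q1 is known in the
first two cases, it is reduced to strict Calabi-Yau manifolds, and it holds for all `Y` having a
finite étale covering which is a product of abelian and irreducible holomorphic symplectic manifolds.
-/

set_option autoImplicit false

namespace Pool.Agent.Results.MP_e39d36_ag.FiniteQuotientsOfProducts

open Pool.Agent.TH30.MK.Pres Pool.Agent.TH30.MK.Movable

/-- The movable cone conjecture for the factors of a product implies it for every quotient of the
product by a finite group. -/
theorem result (I : Type) [Fintype I] (F : I → Manifold) (X : Manifold)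
    (p : ∀ i, (F i).N → X.N) (hp : Manifold.IsProd F X p) (hK : KerCond X.act)
    (G : Subgroup X.A) [Finite G] (Y : Manifold) (pull : Y.N → X.N) (push : X.N → Y.N)
    (hY : Manifold.IsFinQuot X G Y pull push) (hF : ∀ i, (F i).Q1) : Y.Q1 :=
  Manifold.main F X p hp hK G Y pull push hY hF

end Pool.Agent.Results.MP_e39d36_ag.FiniteQuotientsOfProducts
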