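import Pool.Agent.TH30.MK.MaxRank2

/-!
# The movable cone conjecture for diagonalisable groups of maximal rank

A `Variety` records what enters Q1 for a smooth projective `Y` with `K_Y ≡ 0`: `N¹(Y)` with its
lattice, the action of `Bir(Y)`, the effective movable cone `K`. `Eff` is the effective cone.

Let `v₁, …, v_ρ` be a basis of `N¹(Y)` consisting of classes in the closed movable cone. `logs` is the
set of all vectors `(log λ₁, …, log λ_ρ)` for birational automorphisms which act on this basis by a
diagonal matrix with positive entries `λᵢ`. The hypothesis `rank` of `MaxDiag` is that these vectors
and `(1, …, 1)` span `ℝ^ρ`, that is, that the group of these automorphisms has the maximal possible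
rank `ρ - 1` on `N¹(Y)`. (They lie in the hyperplane `Σ tᵢ = 0`, because the action preserves a
lattice; this is proved below.)

`result`: under this hypothesis Q1 holds for `Y`, and every non-zero effective class is in the
interior of the movable cone. For `ρ = 2` the hypothesis says that `Bir(Y)` is infinite on `N¹(Y)`.

Proof: the group contracts all coordinates relative to a given one, so the closed effective and
movable cones are both equal to the cone of the classes with non-negative coordinates; a lattice
point on its boundary could be contracted to zero, so there is none but zero; the group acts
cocompactly on the open cone modulo scalars, and a compact part is covered by a rational polyhedral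
cone; then Looijenga's theorem applies.
-/

set_option autoImplicit false

namespace Pool.Agent.Results.MP_e39d36_ag.MaximalRankAbelianGroups

open Pool.Agent.TH30.MK.Pres

/-- Q1 holds when the birational automorphisms acting diagonally with positive eigenvalues on a basis
of classes of the closed movable cone have rank `ρ - 1`; all non-zero effective classes are then in
the interior of the movable cone. -/
theorem result (X : Variety) (Eff : Set X.N) (n : ℕ) (v : Module.Basis (Fin n) ℝ X.N)
    (h : MaxDiag X Eff v) : X.Q1 ∧ ∀ x ∈ Eff, x ≠ 0 → x ∈ interior X.K :=
  maxDiag_q1 h

end Pool.Agent.Results.MP_e39d36_ag.MaximalRankAbelianGroups
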